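import Mathlib

/-!
Factorization lengths of `U (-U)` for a sequence `U = ∏ g_i` which has no integral relation with
coefficients in `{-1,0,1}` besides the constant ones.
-/

set_option autoImplicit false

namespace Pool.Agent.H169.Gap

/-- minimal zero-sum sequences -/
def Atom {G : Type*} [AddCommGroup G] (U : Multiset G) : Prop :=
  U ≠ 0 ∧ U.sum = 0 ∧ ∀ V ≤ U, V.sum = 0 → V = 0 ∨ V = U

theorem split_of_map {α β : Type*} (h : α → β) (t : Multiset β) :
    ∀ (s : Multiset α) (u : Multiset β), s.map h = t + u →
      ∃ s1 s2 : Multiset α, s = s1 + s2 ∧ s1.map h = t ∧ s2.map h = u := by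
  induction t using Multiset.induction_on with
  | empty =>
    intro s u hs
    exact ⟨0, s, by simp, by simp, by simpa using hs⟩
  | cons a t ih =>
    intro s u hs
    have ha : a ∈ s.map h := by rw [hs]; simp
    obtain ⟨x, hx, rfl⟩ := Multiset.mem_map.1 ha
    obtain ⟨s', rfl⟩ := Multiset.exists_cons_of_mem hx
    rw [Multiset.map_cons, Multiset.cons_add, Multiset.cons_inj_right] at hs
    obtain ⟨s1, s2, rfl, h1, h2⟩ := ih s' u hs
    exact ⟨x ::ₘ s1, s2, by simp, by simp [h1], h2⟩

theorem lift_sum {α β : Type*} (h : α → β) (F : Multiset (Multiset β)) :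
    ∀ s : Multiset α, s.map h = F.sum →
      ∃ F' : Multiset (Multiset α), F'.sum = s ∧ F'.map (Multiset.map h) = F := by
  induction F using Multiset.induction_on with
  | empty =>
    intro s hs
    rw [Multiset.sum_zero, Multiset.map_eq_zero] at hs
    exact ⟨0, by simp [hs], by simp⟩
  | cons W F ih =>
    intro s hs
    rw [Multiset.sum_cons] at hs
    obtain ⟨s1, s2, rfl, h1, h2⟩ := split_of_map h W s _ hs
    obtain ⟨F', h3, h4⟩ := ih s2 h2
    exact ⟨s1 ::ₘ F', by simp [h3], by simp [h1, h4]⟩

section

variable {G : Type*} [AddCommGroup G] {κ : Type*} [Fintype κ] [DecidableEq κ]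

/-- only constant relations with coefficients in `{-1,0,1}` -/
def Rigid (g : κ → G) : Prop :=
  ∀ x : κ → ℤ, (∀ i, |x i| ≤ 1) → ∑ i, x i • g i = 0 →
    (∀ i, x i = 0) ∨ (∀ i, x i = 1) ∨ (∀ i, x i = -1)

omit [DecidableEq κ] in
theorem Rigid.neg {g : κ → G} (h : Rigid g) : Rigid (fun i => -g i) := by
  intro x hx hs
  refine h x hx ?_
  have : ∑ i, x i • (-g i) = -∑ i, x i • g i := by
    rw [← Finset.sum_neg_distrib]; exact Finset.sum_congr rfl fun i _ => by rw [smul_neg]
  rw [this, neg_eq_zero] at hs
  exact hs

theorem sum_map_count (g : κ → G) (V : Multiset κ) :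
    (V.map g).sum = ∑ i, (V.count i : ℤ) • g i := by
  induction V using Multiset.induction_on with
  | empty => simp
  | cons a V ih =>
    rw [Multiset.map_cons, Multiset.sum_cons, ih]
    have : ∀ i, (((a ::ₘ V).count i : ℕ) : ℤ) • g i = (if i = a then g i else 0) + (V.count i : ℤ) • g i := by
      intro i
      rw [Multiset.count_cons]
      split_ifs with h
      · push_cast; rw [add_smul, one_smul, add_comm]
      · simp
    rw [Finset.sum_congr rfl fun i _ => this i, Finset.sum_add_distrib]
    simp

theorem atom_all [Nonempty κ] {g : κ → G} (h : Rigid g) (h0 : ∑ i, g i = 0) :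
    Atom ((Finset.univ : Finset κ).val.map g) := by
  refine ⟨?_, ?_, ?_⟩
  · intro hz
    rw [Multiset.map_eq_zero] at hz
    have := Finset.univ_nonempty (α := κ)
    rw [Finset.val_eq_zero] at hz
    exact this.ne_empty hz
  · exact h0
  · intro V hV hs
    obtain ⟨u, hu⟩ := Multiset.le_iff_exists_add.1 hV
    obtain ⟨V', s2, e1, e2, e3⟩ := split_of_map g V _ u hu
    have hle : ∀ i, V'.count i ≤ 1 := by
      intro i
      have h1 : V' ≤ (Finset.univ : Finset κ).val := by rw [e1]; exact Multiset.le_add_right _ _
      refine (Multiset.count_le_of_le i h1).trans ?_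
      exact Multiset.nodup_iff_count_le_one.1 Finset.univ.nodup i
    rw [← e2, sum_map_count] at hs
    rcases h (fun i => (V'.count i : ℤ)) (fun i => by
      have := hle i
      rw [abs_of_nonneg (by positivity)]; exact_mod_cast this) hs with h1 | h1 | h1
    · left
      have : V' = 0 := by
        apply Multiset.ext.2
        intro a
        have := h1 a
        simp only [Nat.cast_eq_zero] at this
        rw [this]; simp
      rw [← e2, this]; simp
    · right
      have : V' = (Finset.univ : Finset κ).val := by
        apply Multiset.ext.2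
        intro a
        have h2 := h1 a
        have h3 : V'.count a = 1 := by exact_mod_cast h2
        rw [h3]
        exact (Multiset.count_eq_one_of_mem Finset.univ.nodup (Finset.mem_univ a)).symm
      rw [← e2, this]
    · exfalso
      obtain ⟨i⟩ := ‹Nonempty κ›
      have := h1 i
      omega

omit [Fintype κ] [DecidableEq κ] in
theorem atom_pair {g : κ → G} (i : κ) (h : g i ≠ 0) : Atom ({g i, -g i} : Multiset G) := by
  refine ⟨by simp, by simp, ?_⟩
  intro V hV hs
  have hc := Multiset.card_le_card hV
  have hcard : Multiset.card ({g i, -g i} : Multiset G) = 2 := by simp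
  rw [hcard] at hc
  rcases Nat.lt_or_ge (Multiset.card V) 2 with h2 | h2
  · rcases Nat.lt_or_ge (Multiset.card V) 1 with h1 | h1
    · left
      exact Multiset.card_eq_zero.1 (by omega)
    · exfalso
      obtain ⟨c, rfl⟩ := Multiset.card_eq_one.1 (by omega : Multiset.card V = 1)
      rw [Multiset.sum_singleton] at hs
      have hm : c ∈ ({g i, -g i} : Multiset G) := Multiset.mem_of_le hV (Multiset.mem_singleton_self c)
      simp only [Multiset.insert_eq_cons, Multiset.mem_cons, Multiset.mem_singleton] at hm
      rcases hm with rfl | rfl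
      · exact h hs
      · exact h (neg_eq_zero.1 hs)
  · right
    exact Multiset.eq_of_le_of_card_le hV (by rw [hcard]; exact h2)

/-- signed elements -/
def sg (g : κ → G) (p : κ × Bool) : G := if p.2 then g p.1 else -g p.1

/-- index multiset -/
def idx (κ : Type*) [Fintype κ] : Multiset (κ × Bool) :=
  (Finset.univ : Finset κ).val.map (fun i => (i, true)) +
    (Finset.univ : Finset κ).val.map (fun i => (i, false))

/-- the sequence `U (-U)` -/
def seq (g : κ → G) : Multiset G :=
  (Finset.univ : Finset κ).val.map g + (Finset.univ : Finset κ).val.map (fun i => -g i)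

omit [DecidableEq κ] in
theorem map_idx (g : κ → G) : (idx κ).map (sg g) = seq g := by
  unfold idx seq
  rw [Multiset.map_add, Multiset.map_map, Multiset.map_map]
  rfl

theorem count_idx (p : κ × Bool) : (idx κ).count p = 1 := by
  obtain ⟨i, b⟩ := p
  unfold idx
  rw [Multiset.count_add]
  have inj : ∀ b : Bool, Function.Injective (fun i : κ => (i, b)) := fun b x y h => (Prod.mk.inj h).1
  have h1 : ∀ b : Bool, ((Finset.univ : Finset κ).val.map (fun i => (i, b))).count (i, b) = 1 := by
    intro b
    rw [Multiset.count_map_eq_count' (fun i : κ => (i, b)) _ (inj b)]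
    exact Multiset.count_eq_one_of_mem Finset.univ.nodup (Finset.mem_univ i)
  have h2 : ∀ b c : Bool, b ≠ c →
      ((Finset.univ : Finset κ).val.map (fun i => (i, b))).count (i, c) = 0 := by
    intro b c hbc
    rw [Multiset.count_eq_zero]
    intro hm
    obtain ⟨j, _, hj⟩ := Multiset.mem_map.1 hm
    exact hbc (Prod.mk.inj hj).2
  cases b
  · rw [h1 false, h2 true false (by decide)]
  · rw [h1 true, h2 false true (by decide)]

omit [DecidableEq κ] in
theorem card_idx : Multiset.card (idx κ) = 2 * Fintype.card κ := by
  unfold idx
  simp only [Multiset.card_add, Multiset.card_map, Finset.card_val, Finset.card_univ]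
  ring

theorem sum_map_sg (g : κ → G) (W : Multiset (κ × Bool)) :
    (W.map (sg g)).sum = ∑ i, ((W.count (i, true) : ℤ) - (W.count (i, false) : ℤ)) • g i := by
  induction W using Multiset.induction_on with
  | empty => simp
  | cons a W ih =>
    rw [Multiset.map_cons, Multiset.sum_cons, ih]
    obtain ⟨a, b⟩ := a
    have : ∀ i, ((((a, b) ::ₘ W).count (i, true) : ℤ) - (((a, b) ::ₘ W).count (i, false) : ℤ)) • g i
        = (if i = a then sg g (i, b) else 0) +
          ((W.count (i, true) : ℤ) - (W.count (i, false) : ℤ)) • g i := by
      intro i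
      rw [Multiset.count_cons, Multiset.count_cons]
      by_cases hi : i = a
      · subst hi
        cases b
        · simp [sg]
          rw [← neg_one_zsmul, ← add_smul]; congr 1; ring
        · simp [sg]
          rw [← one_zsmul (g i), smul_smul, smul_smul, ← add_smul]; congr 1; ring
      · simp [hi]
    rw [Finset.sum_congr rfl fun i _ => this i, Finset.sum_add_distrib]
    simp

theorem lengths [Nonempty κ] {g : κ → G} (h : Rigid g)
    (F : Multiset (Multiset G)) (hF : ∀ U ∈ F, Atom U) (hs : F.sum = seq g) :
    Multiset.card F = 2 ∨ Multiset.card F = Fintype.card κ := by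
  obtain ⟨F', h1, h2⟩ := lift_sum (sg g) F (idx κ) (by rw [map_idx, hs])
  have hcard : Multiset.card F = Multiset.card F' := by rw [← h2, Multiset.card_map]
  have hle : ∀ W ∈ F', W ≤ idx κ := by
    intro W hW
    rw [← h1]
    obtain ⟨R, rfl⟩ := Multiset.exists_cons_of_mem hW
    rw [Multiset.sum_cons]
    exact Multiset.le_add_right _ _
  have hcnt : ∀ W ∈ F', ∀ p, W.count p ≤ 1 := by
    intro W hW p
    have := Multiset.count_le_of_le p (hle W hW)
    rwa [count_idx] at this
  have hatom : ∀ W ∈ F', Atom (W.map (sg g)) := by
    intro W hW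
    apply hF
    rw [← h2]
    exact Multiset.mem_map_of_mem _ hW
  -- the trichotomy
  have tri : ∀ W ∈ F', (∀ i, W.count (i, true) = W.count (i, false)) ∨
      (∃ b, ∀ i, W.count (i, b) = 1 ∧ W.count (i, !b) = 0) := by
    intro W hW
    have h3 := (hatom W hW).2.1
    rw [sum_map_sg] at h3
    rcases h _ (fun i => by
      have a1 := hcnt W hW (i, true)
      have a2 := hcnt W hW (i, false)
      rw [abs_le]; constructor <;> omega) h3 with h4 | h4 | h4
    · left; intro i; have := h4 i; omega
    · right; refine ⟨true, fun i => ?_⟩
      have := h4 i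
      have a1 := hcnt W hW (i, true)
      have a2 := hcnt W hW (i, false)
      constructor
      · omega
      · show W.count (i, false) = 0; omega
    · right; refine ⟨false, fun i => ?_⟩
      have := h4 i
      have a1 := hcnt W hW (i, true)
      have a2 := hcnt W hW (i, false)
      constructor
      · omega
      · show W.count (i, true) = 0; omega
  rw [hcard]
  by_cases hex : ∃ W ∈ F', ∃ b, ∀ i, W.count (i, b) = 1 ∧ W.count (i, !b) = 0
  · left
    obtain ⟨W, hW, b, hb⟩ := hex
    obtain ⟨R, rfl⟩ := Multiset.exists_cons_of_mem hW
    rw [Multiset.sum_cons] at h1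
    have hR : ∀ p, R.sum.count p + W.count p = 1 := by
      intro p
      rw [← count_idx p, ← h1, Multiset.count_add, add_comm]
    have hRle : ∀ V ∈ R, ∀ p, V.count p ≤ R.sum.count p := by
      intro V hV p
      obtain ⟨R', rfl⟩ := Multiset.exists_cons_of_mem hV
      rw [Multiset.sum_cons, Multiset.count_add]
      exact Nat.le_add_right _ _
    obtain ⟨i0⟩ := ‹Nonempty κ›
    have key : ∀ V ∈ R, V.count (i0, !b) = 1 := by
      intro V hV
      have hVF : V ∈ W ::ₘ R := Multiset.mem_cons_of_mem hV
      have z : ∀ i, V.count (i, b) = 0 := by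
        intro i
        have a1 := hRle V hV (i, b)
        have a2 := hR (i, b)
        rw [(hb i).1] at a2
        omega
      rcases tri V hVF with h5 | ⟨c, hc⟩
      · exfalso
        apply (hatom V hVF).1
        rw [Multiset.map_eq_zero]
        apply Multiset.ext.2
        rintro ⟨i, c⟩
        have z1 := z i
        have z2 := h5 i
        rw [Multiset.count_zero]
        cases b <;> cases c <;> omega
      · have z1 := z i0
        have z2 := (hc i0).1
        have : c = !b := by
          cases b <;> cases c <;> simp_all
        rw [← this]; exact z2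
    have hsum : ∀ S : Multiset (Multiset (κ × Bool)), (∀ V ∈ S, V.count (i0, !b) = 1) →
        S.sum.count (i0, !b) = Multiset.card S := by
      intro S
      induction S using Multiset.induction_on with
      | empty => simp
      | cons V S ih =>
        intro hS
        rw [Multiset.sum_cons, Multiset.count_add, Multiset.card_cons,
          ih (fun U hU => hS U (Multiset.mem_cons_of_mem hU)), hS V (Multiset.mem_cons_self _ _)]
        ring
    have h6 := hsum R key
    have h7 := hR (i0, !b)
    rw [(hb i0).2] at h7
    rw [Multiset.card_cons]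
    omega
  · right
    have heq : ∀ W ∈ F', ∀ i, W.count (i, true) = W.count (i, false) := by
      intro W hW
      rcases tri W hW with h3 | h3
      · exact h3
      · exact absurd ⟨W, hW, h3⟩ hex
    have hc2 : ∀ W ∈ F', Multiset.card W = 2 := by
      intro W hW
      have hne : W ≠ 0 := by
        intro h0
        apply (hatom W hW).1
        rw [h0]; simp
      obtain ⟨⟨i, b⟩, hib⟩ := Multiset.exists_mem_of_ne_zero hne
      have c1 : 1 ≤ W.count (i, b) := Multiset.one_le_count_iff_mem.2 hib
      have c2 := heq W hW i
      have c3 : 1 ≤ W.count (i, true) ∧ 1 ≤ W.count (i, false) := by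
        cases b <;> omega
      have hPle : ({(i, true), (i, false)} : Multiset (κ × Bool)) ≤ W := by
        rw [Multiset.le_iff_count]
        intro p
        simp only [Multiset.insert_eq_cons, Multiset.count_cons, Multiset.count_singleton]
        by_cases q1 : p = (i, true)
        · subst q1
          simp
          exact c3.1
        · by_cases q2 : p = (i, false)
          · subst q2
            simp
            exact c3.2
          · simp [q1, q2]
      have h5 := (hatom W hW).2.2 _ (Multiset.map_le_map hPle) (by simp [sg])
      rcases h5 with h5 | h5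
      · rw [Multiset.map_eq_zero] at h5
        simp at h5
      · have := congrArg Multiset.card h5
        rw [Multiset.card_map, Multiset.card_map] at this
        rw [← this]; simp
    have hsum : ∀ S : Multiset (Multiset (κ × Bool)), (∀ V ∈ S, Multiset.card V = 2) →
        Multiset.card S.sum = 2 * Multiset.card S := by
      intro S
      induction S using Multiset.induction_on with
      | empty => simp
      | cons V S ih =>
        intro hS
        rw [Multiset.sum_cons, Multiset.card_add, Multiset.card_cons,
          ih (fun U hU => hS U (Multiset.mem_cons_of_mem hU)), hS V (Multiset.mem_cons_self _ _)]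
        ring
    have := hsum F' hc2
    rw [h1, card_idx] at this
    omega

/-- The sequence `U(-U)` has exactly the factorization lengths `2` and `|κ|`. -/
theorem gap [Nonempty κ] {g : κ → G} (h : Rigid g) (h0 : ∑ i, g i = 0) (hne : ∀ i, g i ≠ 0) :
    (seq g).sum = 0 ∧
    (∃ F : Multiset (Multiset G), Multiset.card F = 2 ∧ (∀ U ∈ F, Atom U) ∧ F.sum = seq g) ∧
    (∃ F : Multiset (Multiset G), Multiset.card F = Fintype.card κ ∧ (∀ U ∈ F, Atom U) ∧
      F.sum = seq g) ∧
    (∀ F : Multiset (Multiset G), (∀ U ∈ F, Atom U) → F.sum = seq g →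
      Multiset.card F = 2 ∨ Multiset.card F = Fintype.card κ) := by
  have h0' : ∑ i, -g i = 0 := by rw [Finset.sum_neg_distrib, h0, neg_zero]
  refine ⟨?_, ?_, ?_, fun F hF hs => lengths h F hF hs⟩
  · unfold seq
    rw [Multiset.sum_add]
    have e1 : ((Finset.univ : Finset κ).val.map g).sum = 0 := h0
    have e2 : ((Finset.univ : Finset κ).val.map (fun i => -g i)).sum = 0 := h0'
    rw [e1, e2, add_zero]
  · refine ⟨{(Finset.univ : Finset κ).val.map g, (Finset.univ : Finset κ).val.map (fun i => -g i)},
      by simp, ?_, by simp [seq]⟩
    intro U hU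
    simp only [Multiset.insert_eq_cons, Multiset.mem_cons, Multiset.mem_singleton] at hU
    rcases hU with rfl | rfl
    · exact atom_all h h0
    · exact atom_all h.neg h0'
  · refine ⟨(Finset.univ : Finset κ).val.map (fun i => ({g i, -g i} : Multiset G)), by simp, ?_, ?_⟩
    · intro U hU
      obtain ⟨i, _, rfl⟩ := Multiset.mem_map.1 hU
      exact atom_pair i (hne i)
    · unfold seq
      have : ∀ i, ({g i, -g i} : Multiset G) = {g i} + {-g i} := fun i => by simp
      rw [Multiset.map_congr rfl (fun i _ => this i), Multiset.sum_map_add]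
      have e1 : ∀ f : κ → G, ((Finset.univ : Finset κ).val.map (fun i => ({f i} : Multiset G))).sum
          = (Finset.univ : Finset κ).val.map f := by
        intro f
        have := Multiset.sum_map_singleton ((Finset.univ : Finset κ).val.map f)
        rw [Multiset.map_map] at this
        exact this
      rw [e1, e1]

end

end Pool.Agent.H169.Gap
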