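import Mathlib
import Pool.Agent.H169.Gap

set_option autoImplicit false

namespace Pool.Agent.H169.Sys

open Pool.Agent.H169.Gap

/-- weighted number of functionals taking the value `1` at `v` -/
def N {ι : Type} [Fintype ι] {s : ℕ} (L : ι → (Fin s → ZMod 3) →ₗ[ZMod 3] ZMod 3)
    (e : ι → ZMod 5) (v : Fin s → ZMod 3) : ZMod 5 := ∑ i, if L i v = 1 then e i else 0

theorem aux_sum : ∀ c t : ZMod 3, t ≠ 0 → ∀ x : ZMod 5,
    ∑ a : ZMod 3, (if a * t + c = 1 then x else 0) = x := by decide

theorem aux_three : ∀ x : ZMod 5, ∑ _a : ZMod 3, 2 * x = x := by decide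

theorem exists_system (s : ℕ) : ∃ (ι : Type) (_ : Fintype ι)
    (L : ι → (Fin s → ZMod 3) →ₗ[ZMod 3] ZMod 3) (e : ι → ZMod 5), 30 ≤ Fintype.card ι ∧
      ∀ v, v ≠ 0 → (N L e v = 1 ∧ N L e (-v) = 0) ∨ (N L e v = 0 ∧ N L e (-v) = 1) := by
  induction s with
  | zero =>
    refine ⟨Fin 30, inferInstance, fun _ => 0, fun _ => 0, by simp, ?_⟩
    intro v hv
    exact absurd (Subsingleton.elim v 0) hv
  | succ s ih =>
    obtain ⟨ι, _, L, e, hc, hN⟩ := ih
    let T : (Fin (s + 1) → ZMod 3) →ₗ[ZMod 3] (Fin s → ZMod 3) :=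
      LinearMap.funLeft (ZMod 3) (ZMod 3) Fin.succ
    let P : (Fin (s + 1) → ZMod 3) →ₗ[ZMod 3] ZMod 3 := LinearMap.proj 0
    let E : ZMod 5 := ∑ i, e i
    let L' : (ι × ZMod 3) ⊕ Bool → (Fin (s + 1) → ZMod 3) →ₗ[ZMod 3] ZMod 3 :=
      Sum.elim (fun p => p.2 • P + (L p.1).comp T) (fun b => if b then P else -P)
    let e' : (ι × ZMod 3) ⊕ Bool → ZMod 5 :=
      Sum.elim (fun p => 2 * e p.1) (fun b => if b then 1 - 2 * E else -(2 * E))
    refine ⟨(ι × ZMod 3) ⊕ Bool, inferInstance, L', e', ?_, ?_⟩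
    · rw [Fintype.card_sum, Fintype.card_prod, ZMod.card]
      omega
    · have hval : ∀ v, N L' e' v = (∑ i, ∑ a : ZMod 3, if a * v 0 + L i (T v) = 1 then 2 * e i else 0)
          + ((if v 0 = 1 then 1 - 2 * E else 0) + (if -v 0 = 1 then -(2 * E) else 0)) := by
        intro v
        unfold N
        rw [Fintype.sum_sum_type, Fintype.sum_prod_type, Fintype.sum_bool]
        simp [L', e', P]
      have h0 : ∀ v : Fin (s + 1) → ZMod 3, v 0 = 0 → N L' e' v = N L e (T v) := by
        intro v hv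
        rw [hval, hv]
        have h1 : (0 : ZMod 3) ≠ 1 := by decide
        have h2 : (-0 : ZMod 3) ≠ 1 := by decide
        rw [if_neg h1, if_neg h2]
        simp only [mul_zero, zero_add, add_zero]
        unfold N
        refine Finset.sum_congr rfl fun i _ => ?_
        split_ifs
        · exact aux_three (e i)
        · simp
      have h1 : ∀ v : Fin (s + 1) → ZMod 3, v 0 ≠ 0 → N L' e' v = 2 * E
          + ((if v 0 = 1 then 1 - 2 * E else 0) + (if -v 0 = 1 then -(2 * E) else 0)) := by
        intro v hv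
        rw [hval]
        congr 1
        rw [Finset.mul_sum]
        refine Finset.sum_congr rfl fun i _ => ?_
        exact aux_sum _ _ hv _
      intro v hv
      by_cases hv0 : v 0 = 0
      · have hT : T v ≠ 0 := by
          intro hT
          apply hv
          funext j
          refine Fin.cases hv0 (fun k => ?_) j
          exact congrFun hT k
        have hn0 : (-v) 0 = 0 := by rw [Pi.neg_apply, hv0, neg_zero]
        rw [h0 v hv0, h0 (-v) hn0, map_neg]
        exact hN _ hT
      · have hn0 : (-v) 0 ≠ 0 := by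
          rw [Pi.neg_apply]; exact neg_ne_zero.2 hv0
        rw [h1 v hv0, h1 (-v) hn0, Pi.neg_apply, neg_neg]
        have : v 0 = 1 ∨ v 0 = 2 := by
          revert hv0
          generalize v 0 = t
          revert t
          decide
        rcases this with h | h
        · left
          rw [h]
          have a1 : ¬ (-(1 : ZMod 3) = 1) := by decide
          simp only [if_true, if_neg a1]
          constructor <;> ring
        · right
          rw [h]
          have a1 : ¬ ((2 : ZMod 3) = 1) := by decide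
          have a2 : -(2 : ZMod 3) = 1 := by decide
          simp only [if_neg a1, if_pos a2]
          constructor <;> ring

/-- The group: `C_3^{r-1} ⊕ C_15`. -/
def n (r : ℕ) (j : Fin r) : ℕ := if j.val + 1 = r then 15 else 3

theorem exists_hom (r : ℕ) (hr : 1 ≤ r) :
    ∃ θ : (ZMod 5 × (Fin r → ZMod 3)) →+ ((j : Fin r) → ZMod (n r j)), ∀ x, θ x = 0 → x = 0 := by
  have key : ∀ j : Fin r, ∃ f : (ZMod 5 × (Fin r → ZMod 3)) →+ ZMod (n r j), ∀ x, f x = 0 →
      x.2 j = 0 ∧ (j.val + 1 = r → x.1 = 0) := by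
    intro j
    by_cases hj : j.val + 1 = r
    · have hn : n r j = 3 * 5 := if_pos hj
      rw [hn]
      let c := ZMod.chineseRemainder (m := 3) (n := 5) (by norm_num)
      let q : (ZMod 5 × (Fin r → ZMod 3)) →+ ZMod 3 × ZMod 5 :=
        ((Pi.evalAddMonoidHom _ j).comp (AddMonoidHom.snd _ _)).prod (AddMonoidHom.fst _ _)
      refine ⟨(c.symm : (ZMod 3 × ZMod 5) →+ ZMod (3 * 5)).comp q, ?_⟩
      intro x hx
      have h1 : c.symm (q x) = 0 := hx
      have h2 : q x = 0 := by
        have := congrArg c h1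
        rwa [RingEquiv.apply_symm_apply, map_zero] at this
      have h3 : (x.2 j, x.1) = (0 : ZMod 3 × ZMod 5) := h2
      rw [Prod.mk_eq_zero] at h3
      exact ⟨h3.1, fun _ => h3.2⟩
    · have hn : n r j = 3 := if_neg hj
      rw [hn]
      refine ⟨(Pi.evalAddMonoidHom _ j).comp (AddMonoidHom.snd _ _), ?_⟩
      intro x hx
      exact ⟨hx, fun h => absurd h hj⟩
  choose f hf using key
  refine ⟨AddMonoidHom.pi f, ?_⟩
  intro x hx
  have h1 : ∀ j, f j x = 0 := fun j => congrFun hx j
  apply Prod.ext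
  · have h2 := (hf ⟨r - 1, by omega⟩ x (h1 _)).2 (by simp only; omega)
    exact h2
  · funext j
    exact (hf j x (h1 j)).1

end Pool.Agent.H169.Sys
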