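import Mathlib
import Pool.Agent.H169.Gap
import Pool.Agent.H169.Sys

set_option autoImplicit false

namespace Pool.Agent.H169.Final

open Pool.Agent.H169.Gap
open Pool.Agent.H169.Sys

theorem Rigid.ne_zero {G : Type*} [AddCommGroup G] {κ : Type*} [Fintype κ] [DecidableEq κ]
    {g : κ → G} (h : Rigid g) (h2 : 2 ≤ Fintype.card κ) (i : κ) : g i ≠ 0 := by
  intro hi
  have h3 := h (Pi.single i 1) (by
    intro j
    by_cases hj : j = i
    · subst hj; simp
    · simp [hj]) (by
    rw [Finset.sum_eq_single i]
    · rw [hi, smul_zero]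
    · intro b _ hb
      simp [hb]
    · intro hn; exact absurd (Finset.mem_univ i) hn)
  have : ∃ j, j ≠ i := by
    by_contra hcon
    push Not at hcon
    have : Fintype.card κ ≤ 1 := Fintype.card_le_one_iff.2 fun a b => by rw [hcon a, hcon b]
    omega
  obtain ⟨j, hj⟩ := this
  rcases h3 with h4 | h4 | h4
  · have := h4 i; simp at this
  · have := h4 j; simp [hj] at this
  · have := h4 j; simp [hj] at this

theorem lift_three : ∀ (y : ℤ), -1 ≤ y → y ≤ 1 → ∀ (t : ZMod 3) (e : ZMod 5), (y : ZMod 3) = t →
    (y : ZMod 5) * e = (if t = 1 then e else 0) - (if -t = 1 then e else 0) := by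
  intro y h1 h2
  interval_cases y <;> decide

theorem lift_three' : ∀ (y : ℤ), 0 ≤ y → y ≤ 2 → ∀ (t : ZMod 3) (e : ZMod 5), (y : ZMod 3) = t →
    (y : ZMod 5) * e = (if t = 1 then e else 0) + 2 * (if -t = 1 then e else 0) := by
  intro y h1 h2
  interval_cases y <;> decide

/-- existence of the group and of the sequence -/
theorem exists_seq : ∃ (r : ℕ) (κ : Type) (_ : Fintype κ) (_ : DecidableEq κ)
    (g : κ → ((j : Fin r) → ZMod (n r j))), 20 ≤ r ∧ Fintype.card κ = r + 8 ∧
      ∑ i, g i = 0 ∧ Rigid g := by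
  classical
  obtain ⟨ι, hι, L, e, hc, hN⟩ := exists_system 7
  let Φ : (Fin 7 → ZMod 3) →ₗ[ZMod 3] (ι → ZMod 3) := LinearMap.pi L
  have hpos : ∀ v, (∀ i, L i v = 0) → v = 0 := by
    intro v hv
    by_contra hne
    have z : N L e v = 0 ∧ N L e (-v) = 0 := by
      constructor
      · unfold N
        refine Finset.sum_eq_zero fun i _ => ?_
        rw [hv i, if_neg (by decide)]
      · unfold N
        refine Finset.sum_eq_zero fun i _ => ?_
        rw [map_neg, hv i, if_neg (by decide)]
    rcases hN v hne with h | h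
    · rw [z.1] at h; exact absurd h.1 (by decide)
    · rw [z.2] at h; exact absurd h.2 (by decide)
  have hinj : Function.Injective Φ := by
    rw [← LinearMap.ker_eq_bot, LinearMap.ker_eq_bot']
    intro v hv
    exact hpos v fun i => congrFun hv i
  let C : Submodule (ZMod 3) (ι → ZMod 3) := LinearMap.range Φ
  haveI : Fact (Nat.Prime 3) := ⟨Nat.prime_three⟩
  have hC : Module.finrank (ZMod 3) C = 7 := by
    rw [LinearMap.finrank_range_of_inj hinj]; simp
  have hQ := Submodule.finrank_quotient_add_finrank C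
  rw [hC, Module.finrank_fintype_fun_eq_card] at hQ
  let r := Module.finrank (ZMod 3) ((ι → ZMod 3) ⧸ C)
  have hr : r + 7 = Fintype.card ι := hQ
  have hr20 : 20 ≤ r := by omega
  let B : ((ι → ZMod 3) ⧸ C) ≃ₗ[ZMod 3] (Fin r → ZMod 3) :=
    (Module.finBasis (ZMod 3) ((ι → ZMod 3) ⧸ C)).equivFun
  let π : (ι → ZMod 3) →ₗ[ZMod 3] (Fin r → ZMod 3) := B.toLinearMap.comp C.mkQ
  have hπ : ∀ x, π x = 0 → ∃ v, ∀ i, x i = L i v := by
    intro x hx
    have h1 : B (C.mkQ x) = 0 := hx
    have h2 : C.mkQ x = 0 := by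
      rwa [LinearEquiv.map_eq_zero_iff] at h1
    rw [Submodule.mkQ_apply, Submodule.Quotient.mk_eq_zero] at h2
    obtain ⟨v, hv⟩ := h2
    exact ⟨v, fun i => (congrFun hv i).symm⟩
  obtain ⟨θ, hθ⟩ := exists_hom r (by omega)
  let g0 : ι → ((j : Fin r) → ZMod (n r j)) := fun i => θ (e i, π (Pi.single i 1))
  -- relations
  have rel : ∀ y : ι → ℤ, ∑ i, y i • g0 i = 0 →
      (∑ i, ((y i : ℤ) : ZMod 5) * e i = 0) ∧ ∃ v, ∀ i, ((y i : ℤ) : ZMod 3) = L i v := by
    intro y hy
    have h1 : ∑ i, y i • g0 i = θ (∑ i, ((y i : ℤ) : ZMod 5) * e i,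
        π (fun i => ((y i : ℤ) : ZMod 3))) := by
      have h2 : (∑ i, ((y i : ℤ) : ZMod 5) * e i, π (fun i => ((y i : ℤ) : ZMod 3)))
          = ∑ i, y i • ((e i, π (Pi.single i 1)) : ZMod 5 × (Fin r → ZMod 3)) := by
        apply Prod.ext
        · rw [Prod.fst_sum]
          refine Finset.sum_congr rfl fun i _ => ?_
          simp
        · rw [Prod.snd_sum]
          have h3 : (fun i => ((y i : ℤ) : ZMod 3)) = ∑ i, y i • (Pi.single i 1 : ι → ZMod 3) := by
            funext j
            rw [Finset.sum_apply, Finset.sum_eq_single j]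
            · simp
            · intro b _ hb
              simp [Pi.single_apply, Ne.symm hb]
            · intro hn; exact absurd (Finset.mem_univ j) hn
          simp only
          rw [h3, map_sum]
          refine Finset.sum_congr rfl fun i _ => ?_
          rw [map_zsmul]; rfl
      rw [h2, map_sum]
      refine Finset.sum_congr rfl fun i _ => ?_
      rw [map_zsmul]
    rw [h1] at hy
    have h4 := hθ _ hy
    rw [Prod.mk_eq_zero] at h4
    exact ⟨h4.1, hπ _ h4.2⟩
  have relA : ∀ y : ι → ℤ, (∀ i, -1 ≤ y i ∧ y i ≤ 1) → ∑ i, y i • g0 i = 0 → ∀ i, y i = 0 := by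
    intro y hy hs
    obtain ⟨h1, v, hv⟩ := rel y hs
    have h2 : ∑ i, ((y i : ℤ) : ZMod 5) * e i = N L e v - N L e (-v) := by
      unfold N
      rw [← Finset.sum_sub_distrib]
      refine Finset.sum_congr rfl fun i _ => ?_
      rw [map_neg]
      exact lift_three (y i) (hy i).1 (hy i).2 _ _ (hv i)
    rw [h2] at h1
    have hv0 : v = 0 := by
      by_contra hne
      rcases hN v hne with h | h
      · rw [h.1, h.2] at h1; exact absurd h1 (by decide)
      · rw [h.1, h.2] at h1; exact absurd h1 (by decide)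
    intro i
    have h3 := hv i
    rw [hv0, map_zero, ZMod.intCast_zmod_eq_zero_iff_dvd] at h3
    have := hy i
    omega
  have relB : ∀ y : ι → ℤ, (∀ i, 0 ≤ y i ∧ y i ≤ 2) → ∑ i, y i • g0 i = 0 → ∀ i, y i = 0 := by
    intro y hy hs
    obtain ⟨h1, v, hv⟩ := rel y hs
    have h2 : ∑ i, ((y i : ℤ) : ZMod 5) * e i = N L e v + 2 * N L e (-v) := by
      unfold N
      rw [Finset.mul_sum, ← Finset.sum_add_distrib]
      refine Finset.sum_congr rfl fun i _ => ?_
      rw [map_neg]
      exact lift_three' (y i) (hy i).1 (hy i).2 _ _ (hv i)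
    rw [h2] at h1
    have hv0 : v = 0 := by
      by_contra hne
      rcases hN v hne with h | h
      · rw [h.1, h.2] at h1; exact absurd h1 (by decide)
      · rw [h.1, h.2] at h1; exact absurd h1 (by decide)
    intro i
    have h3 := hv i
    rw [hv0, map_zero, ZMod.intCast_zmod_eq_zero_iff_dvd] at h3
    have := hy i
    omega
  let g : Option ι → ((j : Fin r) → ZMod (n r j)) := fun o => o.elim (-∑ i, g0 i) g0
  refine ⟨r, Option ι, inferInstance, inferInstance, g, hr20, ?_, ?_, ?_⟩
  · rw [Fintype.card_option]; omega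
  · rw [Fintype.sum_option]
    simp [g]
  · intro x hx hs
    rw [Fintype.sum_option] at hs
    have hs' : ∑ i, (x (some i) - x none) • g0 i = 0 := by
      have h1 : ∑ i, (x (some i) - x none) • g0 i
          = x none • (-∑ i, g0 i) + ∑ i, x (some i) • g0 i := by
        rw [smul_neg, Finset.smul_sum, neg_add_eq_sub, ← Finset.sum_sub_distrib]
        exact Finset.sum_congr rfl fun i _ => sub_smul _ _ _
      rw [h1]; exact hs
    have hb : ∀ o, -1 ≤ x o ∧ x o ≤ 1 := fun o => abs_le.1 (hx o)
    have hn := hb none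
    have : x none = 0 ∨ x none = 1 ∨ x none = -1 := by omega
    rcases this with h0 | h0 | h0
    · left
      have h1 := relA (fun i => x (some i) - x none)
        (fun i => by have := hb (some i); simp only [h0]; omega) hs'
      intro o
      cases o with
      | none => exact h0
      | some i => have := h1 i; simp only [h0] at this; omega
    · right; left
      have h1 := relB (fun i => -(x (some i) - x none))
        (fun i => by have := hb (some i); simp only [h0]; omega) (by
          have : ∑ i, (-(x (some i) - x none)) • g0 i = -∑ i, (x (some i) - x none) • g0 i := by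
            rw [← Finset.sum_neg_distrib]
            exact Finset.sum_congr rfl fun i _ => neg_smul _ _
          rw [this, hs', neg_zero])
      intro o
      cases o with
      | none => exact h0
      | some i => have := h1 i; simp only [h0] at this; omega
    · right; right
      have h1 := relB (fun i => x (some i) - x none)
        (fun i => by have := hb (some i); simp only [h0]; omega) hs'
      intro o
      cases o with
      | none => exact h0
      | some i => have := h1 i; simp only [h0] at this; omega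

theorem n_gt (r : ℕ) (i : Fin r) : 1 < n r i := by
  unfold n; split_ifs <;> norm_num

theorem n_dvd (r : ℕ) (i j : Fin r) (h : i ≤ j) : n r i ∣ n r j := by
  unfold n
  have h' : i.val ≤ j.val := h
  have := j.isLt
  split_ifs with h1 h2 h2
  · exact dvd_rfl
  · omega
  · norm_num
  · exact dvd_rfl

theorem n_prod (r : ℕ) (hr : 1 ≤ r) : 3 ≤ ∏ i, n r i := by
  have h1 : n r ⟨0, hr⟩ ∣ ∏ i, n r i := Finset.dvd_prod_of_mem _ (Finset.mem_univ _)
  have h2 : 0 < ∏ i, n r i := Finset.prod_pos fun i _ => (lt_trans Nat.zero_lt_one (n_gt r i))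
  refine le_trans ?_ (Nat.le_of_dvd h2 h1)
  unfold n; split_ifs <;> norm_num

theorem n_sum (r : ℕ) (hr : 1 ≤ r) : ∑ i, n r i / 2 = r + 6 := by
  have h1 : ∀ i : Fin r, n r i / 2 = 1 + if i = ⟨r - 1, by omega⟩ then 6 else 0 := by
    intro i
    unfold n
    by_cases h : i.val + 1 = r
    · have : i = ⟨r - 1, by omega⟩ := Fin.ext (by simp only; omega)
      rw [if_pos h, if_pos this]
    · have : ¬ i = ⟨r - 1, by omega⟩ := fun hh => h (by rw [hh]; simp only; omega)
      rw [if_neg h, if_neg this]
  rw [Finset.sum_congr rfl fun i _ => h1 i, Finset.sum_add_distrib]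
  simp

theorem n_sup (r : ℕ) : Finset.univ.sup (n r) ≤ 15 := by
  apply Finset.sup_le
  intro i _
  unfold n; split_ifs <;> norm_num

end Pool.Agent.H169.Final
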